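import Mathlib
import Pool.Agent.Results.MP_3301e6_mp.TorsionCurvature

/-! # Integrable triangular systems of geometric type with affine connection coefficients

Base components satisfy the linear equation `u_t = u_xxx`; the other components have quadratic and
cubic terms in the base components.  All these systems are integrable, and their torsion and
curvature are arbitrary up to the first Bianchi identity. -/

set_option autoImplicit false

namespace Pool.Agent.Y973.TC

open MvPolynomial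
open Pool.Agent.Results.MP_3301e6_mp.TorsionCurvature

variable {N : ℕ}

/-- connection coefficients which are affine functions of `u` -/
noncomputable def aff (a : Fin N → Fin N → Fin N → ℝ) (c : Fin N → Fin N → Fin N → Fin N → ℝ) :
    Fin N → Fin N → Fin N → MvPolynomial (Fin N) ℝ :=
  fun i j k => C (a i j k) + ∑ m, C (c i j k m) * X m

/-- the array `a` lives on (top; base, base) -/
def Supp3 (B : Set (Fin N)) (a : Fin N → Fin N → Fin N → ℝ) : Prop :=
  ∀ i j k, a i j k ≠ 0 → i ∉ B ∧ j ∈ B ∧ k ∈ B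

/-- the array `c` lives on (top; base, base, base) -/
def Supp4 (B : Set (Fin N)) (c : Fin N → Fin N → Fin N → Fin N → ℝ) : Prop :=
  ∀ i j k m, c i j k m ≠ 0 → i ∉ B ∧ j ∈ B ∧ k ∈ B ∧ m ∈ B

/-- symbol of a cubic term of the flow of order `2k+1` -/
noncomputable def g3 (s t : ℝ) (k : ℕ) : MvPolynomial (Fin 3) ℝ :=
  X 0 * (X 1 * (qt (X 0) (X 1) (X 2) k * (C s * X 1 + C t * X 2)))

lemma g3_zero (k : ℕ) : g3 0 0 k = 0 := by simp [g3]

/-- lower-order part of the flow of order `2k+1` -/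
noncomputable def low (a : Fin N → Fin N → Fin N → ℝ) (s t : Fin N → Fin N → Fin N → Fin N → ℝ)
    (k : ℕ) (i : Fin N) : Jet N :=
  ∑ j, ∑ l, Psi ![j, l] (C (a i j l) * f2 k)
    + ∑ j, ∑ l, ∑ m, Psi ![j, l, m] (g3 (s i j l m) (t i j l m) k)

/-- the flow of order `2k+1` -/
noncomputable def flow (a : Fin N → Fin N → Fin N → ℝ) (s t : Fin N → Fin N → Fin N → Fin N → ℝ)
    (k : ℕ) (i : Fin N) : Jet N := X (i, 2 * k + 1) + low a s t k i

section

variable {B : Set (Fin N)} {a : Fin N → Fin N → Fin N → ℝ}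
  {s t : Fin N → Fin N → Fin N → Fin N → ℝ}

lemma low_base (ha : Supp3 B a) (hs : Supp4 B s) (ht : Supp4 B t) (k : ℕ) {i : Fin N}
    (hi : i ∈ B) : low a s t k i = 0 := by
  have h1 : ∀ j l, a i j l = 0 := fun j l => by
    by_contra h
    exact (ha i j l h).1 hi
  have h2 : ∀ j l m, s i j l m = 0 := fun j l m => by
    by_contra h
    exact (hs i j l m h).1 hi
  have h3 : ∀ j l m, t i j l m = 0 := fun j l m => by
    by_contra h
    exact (ht i j l m h).1 hi
  simp [low, h1, h2, h3, g3_zero]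

lemma ev_flow_base (ha : Supp3 B a) (hs : Supp4 B s) (ht : Supp4 B t) (k : ℕ) {i : Fin N}
    (hi : i ∈ B) (j : ℕ) : ev (flow a s t k) (X (i, j)) = X (i, j + (2 * k + 1)) := by
  rw [ev_X, flow, low_base ha hs ht k hi, add_zero, iter_Dx_X]
  congr 2
  omega

lemma ev_flow_two (ha : Supp3 B a) (hs : Supp4 B s) (ht : Supp4 B t) (k : ℕ) (i j l : Fin N)
    (f : MvPolynomial (Fin 2) ℝ) :
    ev (flow a s t k) (Psi ![j, l] (C (a i j l) * f))
      = Psi ![j, l] ((∑ i, X i ^ (2 * k + 1)) * (C (a i j l) * f)) := by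
  by_cases h : a i j l = 0
  · simp [h]
  · obtain ⟨-, hj, hl⟩ := ha i j l h
    apply der_Psi
    intro i n
    apply ev_flow_base ha hs ht
    fin_cases i
    · exact hj
    · exact hl

lemma ev_flow_three (ha : Supp3 B a) (hs : Supp4 B s) (ht : Supp4 B t) (k k' : ℕ)
    (i j l m : Fin N) :
    ev (flow a s t k) (Psi ![j, l, m] (g3 (s i j l m) (t i j l m) k'))
      = Psi ![j, l, m] ((∑ i, X i ^ (2 * k + 1)) * g3 (s i j l m) (t i j l m) k') := by
  by_cases h : j ∈ B ∧ l ∈ B ∧ m ∈ B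
  · obtain ⟨hj, hl, hm⟩ := h
    apply der_Psi
    intro i n
    apply ev_flow_base ha hs ht
    fin_cases i
    · exact hj
    · exact hl
    · exact hm
  · have h1 : s i j l m = 0 := by
      by_contra h'
      exact h (hs i j l m h').2
    have h2 : t i j l m = 0 := by
      by_contra h'
      exact h (ht i j l m h').2
    simp [h1, h2, g3_zero]

lemma iter_Dx_sum {ι : Type} (k : ℕ) (A : Finset ι) (f : ι → Jet N) :
    (Dx N)^[k] (∑ i ∈ A, f i) = ∑ i ∈ A, (Dx N)^[k] (f i) := by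
  induction k generalizing f with
  | zero => rfl
  | succ k ih =>
    rw [Function.iterate_succ_apply, map_sum, ih]
    rfl

lemma iter_Dx_low (n k : ℕ) (i : Fin N) : (Dx N)^[n] (low a s t k i)
    = ∑ j, ∑ l, Psi ![j, l] ((∑ i, X i) ^ n * (C (a i j l) * f2 k))
    + ∑ j, ∑ l, ∑ m, Psi ![j, l, m] ((∑ i, X i) ^ n * g3 (s i j l m) (t i j l m) k) := by
  simp only [low, iter_Dx_add, iter_Dx_sum, iter_Dx_Psi]

lemma ev_low (ha : Supp3 B a) (hs : Supp4 B s) (ht : Supp4 B t) (k k' : ℕ) (i : Fin N) :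
    ev (flow a s t k) (low a s t k' i)
    = ∑ j, ∑ l, Psi ![j, l] ((∑ i, X i ^ (2 * k + 1)) * (C (a i j l) * f2 k'))
    + ∑ j, ∑ l, ∑ m, Psi ![j, l, m]
        ((∑ i, X i ^ (2 * k + 1)) * g3 (s i j l m) (t i j l m) k') := by
  simp only [low, map_add, map_sum, ev_flow_two ha hs ht, ev_flow_three ha hs ht]

lemma sym_two (r : ℝ) (k l : ℕ) :
    (∑ i, X i : MvPolynomial (Fin 2) ℝ) ^ (2 * l + 1) * (C r * f2 k)
      + (∑ i, X i ^ (2 * k + 1)) * (C r * f2 l)
    = (∑ i, X i) ^ (2 * k + 1) * (C r * f2 l) + (∑ i, X i ^ (2 * l + 1)) * (C r * f2 k) := by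
  rw [f2, f2, Fin.sum_univ_two, Fin.sum_univ_two, Fin.sum_univ_two]
  have h1 := qt_spec (X 0 : MvPolynomial (Fin 2) ℝ) (X 1) 0 k
  have h2 := qt_spec (X 0 : MvPolynomial (Fin 2) ℝ) (X 1) 0 l
  simp only [add_zero, zero_add, zero_pow (show 2 * k + 1 ≠ 0 by omega),
    zero_pow (show 2 * l + 1 ≠ 0 by omega)] at h1 h2
  linear_combination (- C r * X 0 * X 1 ^ 2 * qt (X 0 : MvPolynomial (Fin 2) ℝ) (X 1) 0 k) * h2
    + (C r * X 0 * X 1 ^ 2 * qt (X 0 : MvPolynomial (Fin 2) ℝ) (X 1) 0 l) * h1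

lemma sym_three (x y : ℝ) (k l : ℕ) :
    (∑ i, X i : MvPolynomial (Fin 3) ℝ) ^ (2 * l + 1) * g3 x y k
      + (∑ i, X i ^ (2 * k + 1)) * g3 x y l
    = (∑ i, X i) ^ (2 * k + 1) * g3 x y l + (∑ i, X i ^ (2 * l + 1)) * g3 x y k := by
  rw [g3, g3, Fin.sum_univ_three, Fin.sum_univ_three, Fin.sum_univ_three]
  have h1 := qt_spec (X 0 : MvPolynomial (Fin 3) ℝ) (X 1) (X 2) k
  have h2 := qt_spec (X 0 : MvPolynomial (Fin 3) ℝ) (X 1) (X 2) l
  linear_combination (- X 0 * X 1 * qt (X 0 : MvPolynomial (Fin 3) ℝ) (X 1) (X 2) k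
      * (C x * X 1 + C y * X 2)) * h2
    + (X 0 * X 1 * qt (X 0 : MvPolynomial (Fin 3) ℝ) (X 1) (X 2) l
      * (C x * X 1 + C y * X 2)) * h1

lemma commute_flow (ha : Supp3 B a) (hs : Supp4 B s) (ht : Supp4 B t) (k l : ℕ) :
    FlowsCommute (flow a s t k) (flow a s t l) := by
  intro i
  have e3 : ∀ k l, ev (flow a s t k) (flow a s t l i) = X (i, 2 * k + 1 + (2 * l + 1))
      + (∑ j, ∑ m, Psi ![j, m] ((∑ i, X i) ^ (2 * l + 1) * (C (a i j m) * f2 k)
          + (∑ i, X i ^ (2 * k + 1)) * (C (a i j m) * f2 l))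
        + ∑ j, ∑ m, ∑ n, Psi ![j, m, n] ((∑ i, X i) ^ (2 * l + 1) * g3 (s i j m n) (t i j m n) k
          + (∑ i, X i ^ (2 * k + 1)) * g3 (s i j m n) (t i j m n) l)) := by
    intro k l
    have h1 : flow a s t l i = X (i, 2 * l + 1) + low a s t l i := rfl
    have h2 : flow a s t k i = X (i, 2 * k + 1) + low a s t k i := rfl
    rw [h1, map_add, ev_X, h2, iter_Dx_add, iter_Dx_X, iter_Dx_low, ev_low ha hs ht]
    simp only [map_add, Finset.sum_add_distrib]
    ring
  rw [e3, e3, show 2 * k + 1 + (2 * l + 1) = 2 * l + 1 + (2 * k + 1) by ring]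
  simp only [sym_two _ k l, sym_three _ _ k l]

lemma low_supported (k : ℕ) (i : Fin N) :
    low a s t (k + 1) i ∈ supported ℝ {p : Fin N × ℕ | p.2 < 2 * (k + 1) + 1} := by
  apply Subalgebra.add_mem
  · refine Subalgebra.sum_mem _ fun j _ => Subalgebra.sum_mem _ fun l _ => ?_
    rw [C_mul', map_smul]
    apply Subalgebra.smul_mem
    apply Psi_supported
    intro m hm i
    apply supp_bound 0 1 (by decide) _ _ _ m hm i
    have h := (isHomogeneous_X ℝ (0 : Fin 2)).mul ((isHomogeneous_X ℝ (1 : Fin 2)).mul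
      ((qt_hom (X 0 : MvPolynomial (Fin 2) ℝ) (X 1) 0 (isHomogeneous_X _ _)
        (isHomogeneous_X _ _) (isHomogeneous_zero _ _ _) k).mul (isHomogeneous_X ℝ (1 : Fin 2))))
    convert h using 1
    ring
  · refine Subalgebra.sum_mem _ fun j _ => Subalgebra.sum_mem _ fun l _ =>
      Subalgebra.sum_mem _ fun n _ => ?_
    apply Psi_supported
    intro m hm i'
    apply supp_bound 0 1 (by decide) _ _ _ m hm i'
    have hC : IsHomogeneous (C (s i j l n) * X 1 + C (t i j l n) * X 2 : MvPolynomial (Fin 3) ℝ)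
        1 := by
      refine IsHomogeneous.add ?_ ?_
      · simpa using (isHomogeneous_C (Fin 3) (s i j l n)).mul (isHomogeneous_X ℝ (1 : Fin 3))
      · simpa using (isHomogeneous_C (Fin 3) (t i j l n)).mul (isHomogeneous_X ℝ (2 : Fin 3))
    have h := (isHomogeneous_X ℝ (0 : Fin 3)).mul ((isHomogeneous_X ℝ (1 : Fin 3)).mul
      ((qt_hom (X 0 : MvPolynomial (Fin 3) ℝ) (X 1) (X 2) (isHomogeneous_X _ _)
        (isHomogeneous_X _ _) (isHomogeneous_X _ _) k).mul hC))
    convert h using 1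
    ring

lemma integrable_flow (ha : Supp3 B a) (hs : Supp4 B s) (ht : Supp4 B t) :
    Integrable (flow a s t 1) := by
  refine ⟨fun k => 2 * (k + 1) + 1, fun k => low a s t (k + 1), ?_, ?_, ?_, ?_⟩
  · intro a b hab
    simp only
    omega
  · exact fun k i => low_supported k i
  · exact fun k => commute_flow ha hs ht 1 (k + 1)
  · exact fun k l => commute_flow ha hs ht (k + 1) (l + 1)

end

/-! ### The system -/

section

variable {B : Set (Fin N)} {a : Fin N → Fin N → Fin N → ℝ}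
  {c : Fin N → Fin N → Fin N → Fin N → ℝ}

lemma aff_eq_zero (ha : Supp3 B a) (hc : Supp4 B c) {i j k : Fin N}
    (h : i ∈ B ∨ j ∉ B ∨ k ∉ B) : aff a c i j k = 0 := by
  have h1 : a i j k = 0 := by
    by_contra h'
    have := ha i j k h'
    tauto
  have h2 : ∀ m, c i j k m = 0 := fun m => by
    by_contra h'
    have := hc i j k m h'
    tauto
  simp [aff, h1, h2]

lemma pderiv_aff (i j k m : Fin N) : pderiv m (aff a c i j k) = C (c i j k m) := by
  classical
  simp only [aff, map_add, pderiv_C, zero_add, map_sum, pderiv_C_mul, pderiv_X, Pi.single_apply]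
  simp

lemma prod_one (ha : Supp3 B a) (hc : Supp4 B c) (i j k m r : Fin N) :
    aff a c i j r * aff a c r k m = 0 := by
  by_cases hr : r ∈ B
  · rw [aff_eq_zero (i := r) ha hc (Or.inl hr), mul_zero]
  · rw [aff_eq_zero (k := r) ha hc (Or.inr (Or.inr hr)), zero_mul]

lemma prod_two (ha : Supp3 B a) (hc : Supp4 B c) (i j k m r : Fin N) :
    aff a c i r j * aff a c r k m = 0 := by
  by_cases hr : r ∈ B
  · rw [aff_eq_zero (i := r) ha hc (Or.inl hr), mul_zero]
  · rw [aff_eq_zero (j := r) ha hc (Or.inr (Or.inl hr)), zero_mul]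

lemma Psi_two (j l : Fin N) (r : ℝ) :
    Psi ![j, l] (C r * f2 1) = 3 * (C r * X (j, 1) * X (l, 2)) := by
  have e : (C r * f2 1 : MvPolynomial (Fin 2) ℝ)
      = (3 * r : ℝ) • ∏ i, X i ^ (![1, 2] : Fin 2 → ℕ) i := by
    simp only [f2, qt, Fin.prod_univ_two, smul_eq_C_mul, map_mul, map_ofNat]
    simp
    ring
  rw [e, map_smul, Psi_prod, Fin.prod_univ_two, smul_eq_C_mul, map_mul, map_ofNat]
  simp
  ring

lemma Psi_three (j l m : Fin N) (x y : ℝ) :
    Psi ![j, l, m] (g3 x y 1) = 3 * (C x * X (m, 0) * X (j, 1) * X (l, 2))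
      + 3 * (C y * X (j, 1) * X (l, 1) * X (m, 1)) := by
  have e : (g3 x y 1 : MvPolynomial (Fin 3) ℝ)
      = (3 * x : ℝ) • ∏ i, X i ^ (![1, 2, 0] : Fin 3 → ℕ) i
        + (3 * y : ℝ) • ∏ i, X i ^ (![1, 1, 1] : Fin 3 → ℕ) i := by
    simp only [g3, qt, Fin.prod_univ_three, smul_eq_C_mul, map_mul, map_ofNat]
    simp
    ring
  rw [e, map_add, map_smul, map_smul, Psi_prod, Psi_prod, Fin.prod_univ_three,
    Fin.prod_univ_three, smul_eq_C_mul, smul_eq_C_mul, map_mul, map_mul, map_ofNat]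
  simp
  ring

lemma system_aff (ha : Supp3 B a) (hc : Supp4 B c) (b : Fin N → Fin N → Fin N → Fin N → ℝ) :
    system (aff a c) (fun i j k m => C (b i j k m))
      = flow a c (fun i j l m => (c i l m j + b i j l m) / 3) 1 := by
  funext i
  have h1 : ∀ j k, emb (aff a c i j k) = C (a i j k) + ∑ m, C (c i j k m) * X (m, 0) := by
    intro j k
    simp [emb, aff]
  have h2 : ∀ j k m, emb (pderiv j (aff a c i k m) + 2 * ∑ r, aff a c i j r * aff a c r k m
      - ∑ r, aff a c i r j * aff a c r k m + C (b i j k m)) = C (c i k m j + b i j k m) := by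
    intro j k m
    rw [Finset.sum_eq_zero fun r _ => prod_one ha hc i j k m r,
      Finset.sum_eq_zero fun r _ => prod_two ha hc i j k m r, pderiv_aff]
    simp [emb]
  have h3 : ∀ j l m, (3 : Jet N) * (C ((c i l m j + b i j l m) / 3) * X (j, 1) * X (l, 1)
      * X (m, 1)) = C (c i l m j + b i j l m) * X (j, 1) * X (l, 1) * X (m, 1) := by
    intro j l m
    have h : (3 : Jet N) * C ((c i l m j + b i j l m) / 3) = C (c i l m j + b i j l m) := by
      rw [← map_ofNat (C : ℝ →+* Jet N) 3, ← C_mul]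
      congr 1
      ring
    rw [← h]
    ring
  simp only [system, flow, low, h1, h2, Psi_two, Psi_three, h3]
  simp only [Finset.sum_add_distrib, add_mul, Finset.mul_sum, Finset.sum_mul, mul_add]
  rw [← add_assoc, ← add_assoc]
  exact (add_assoc _ _ _)

/-- **Integrability** of all triangular systems with affine connection coefficients. -/
theorem integrable_aff (ha : Supp3 B a) (hc : Supp4 B c)
    (b : Fin N → Fin N → Fin N → Fin N → ℝ) (hb : Supp4 B b) :
    Integrable (system (aff a c) (fun i j k m => C (b i j k m))) := by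
  rw [system_aff ha hc b]
  refine integrable_flow ha hc (B := B) ?_
  intro i j l m h
  by_cases h1 : c i l m j = 0
  · have h2 : b i j l m ≠ 0 := by
      intro h2
      exact h (by simp [h1, h2])
    exact hb i j l m h2
  · obtain ⟨e1, e2, e3, e4⟩ := hc i l m j h1
    exact ⟨e1, e4, e2, e3⟩

lemma curvature_aff (ha : Supp3 B a) (hc : Supp4 B c) (i j k l : Fin N) :
    curvature (aff a c) i j k l = C (c i j l k - c i j k l) := by
  have h : ∑ s, (aff a c i s k * aff a c s j l - aff a c i s l * aff a c s j k) = 0 :=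
    Finset.sum_eq_zero fun s _ => by
      rw [prod_two ha hc i k j l s, prod_two ha hc i l j k s, sub_zero]
  rw [curvature, h, pderiv_aff, pderiv_aff, add_zero, C_sub]

lemma torsion_aff (i j k : Fin N) :
    torsion (aff a c) i j k = C (a i j k - a i k j) + ∑ m, C (c i j k m - c i k j m) * X m := by
  simp only [torsion, aff, C_sub, sub_mul, Finset.sum_sub_distrib]
  ring

lemma transpose_aff : (fun i j k => aff a c i k j)
    = aff (fun i j k => a i k j) (fun i j k m => c i k j m) := rfl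

lemma Supp3.transpose (ha : Supp3 B a) : Supp3 B (fun i j k => a i k j) := by
  intro i j k h
  obtain ⟨h1, h2, h3⟩ := ha i k j h
  exact ⟨h1, h3, h2⟩

lemma Supp4.transpose (hc : Supp4 B c) : Supp4 B (fun i j k m => c i k j m) := by
  intro i j k m h
  obtain ⟨h1, h2, h3, h4⟩ := hc i k j m h
  exact ⟨h1, h3, h2, h4⟩

end

/-- **Prescribed torsion and curvature.** -/
theorem prescribed (B : Set (Fin N)) (τ : Fin N → Fin N → Fin N → ℝ)
    (σ ρ b : Fin N → Fin N → Fin N → Fin N → ℝ) (hτ : Supp3 B τ) (hσ : Supp4 B σ)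
    (hρ : Supp4 B ρ) (hb : Supp4 B b)
    (aτ : ∀ i j k, τ i j k = - τ i k j) (aσ : ∀ i j k m, σ i j k m = - σ i k j m)
    (aρ : ∀ i j k m, ρ i j k m = - ρ i j m k)
    (bianchi : ∀ i j k m, ρ i j k m + ρ i k m j + ρ i m j k
      + (σ i j k m + σ i k m j + σ i m j k) = 0) :
    ∃ α : Fin N → Fin N → Fin N → MvPolynomial (Fin N) ℝ,
      Integrable (system α (fun i j k m => C (b i j k m))) ∧
      Integrable (system (fun i j k => α i k j) (fun i j k m => C (b i j k m))) ∧
      (∀ i j k, torsion α i j k = C (τ i j k) + ∑ m, C (σ i j k m) * X m) ∧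
      ∀ i j k m, curvature α i j k m = C (ρ i j k m) := by
  let a : Fin N → Fin N → Fin N → ℝ := fun i j k => τ i j k / 2
  let c : Fin N → Fin N → Fin N → Fin N → ℝ := fun i j k m =>
    (5 * σ i j k m - 4 * ρ i k j m + 3 * σ i k m j - 2 * ρ i m k j + σ i m j k) / 6
  have ha : Supp3 B a := by
    intro i j k h
    apply hτ
    intro h'
    exact h (by simp [a, h'])
  have hc : Supp4 B c := by
    intro i j k m h
    by_contra hcon
    apply h
    have z : ∀ (e : Fin N → Fin N → Fin N → Fin N → ℝ), Supp4 B e →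
        e i j k m = 0 ∧ e i k j m = 0 ∧ e i k m j = 0 ∧ e i m k j = 0 ∧ e i m j k = 0 := by
      intro e he
      refine ⟨?_, ?_, ?_, ?_, ?_⟩
      all_goals
        by_contra h'
        have := he _ _ _ _ h'
        tauto
    obtain ⟨s1, s2, s3, s4, s5⟩ := z σ hσ
    obtain ⟨r1, r2, r3, r4, r5⟩ := z ρ hρ
    simp [c, s1, s3, s5, r2, r4]
  refine ⟨aff a c, integrable_aff ha hc b hb, ?_, ?_, ?_⟩
  · rw [transpose_aff]
    exact integrable_aff ha.transpose hc.transpose b hb
  · intro i j k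
    rw [torsion_aff]
    have h1 : a i j k - a i k j = τ i j k := by
      simp only [a]
      linarith [aτ i j k]
    have h2 : ∀ m, c i j k m - c i k j m = σ i j k m := by
      intro m
      simp only [c]
      linarith [aσ i j k m, aσ i k m j, aσ i m j k, aρ i j k m, aρ i k m j, aρ i m j k,
        bianchi i j k m, bianchi i j m k]
    simp only [h1, h2]
  · intro i j k m
    rw [curvature_aff ha hc]
    congr 1
    simp only [c]
    linarith [aσ i j k m, aσ i k m j, aσ i m j k, aρ i j k m, aρ i k m j, aρ i m j k,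
        bianchi i j k m, bianchi i j m k]

/-- In every dimension `N ≥ 3` there is an integrable system whose torsion and whose curvature (in
both conventions) vanish nowhere. -/
theorem all_dimensions (N : ℕ) (hN : 3 ≤ N) :
    ∃ (α : Fin N → Fin N → Fin N → MvPolynomial (Fin N) ℝ),
      Integrable (system α (fun _ _ _ _ => 0)) ∧
      ∃ i, (∃ j k, ∀ x, eval x (torsion α i j k) ≠ 0) ∧
      (∃ j k l, ∀ x, eval x (curvature α i j k l) ≠ 0) ∧
      (∃ j k l, ∀ x, eval x (curvature (fun i j k => α i k j) i j k l) ≠ 0) := by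
  let i0 : Fin N := ⟨0, by omega⟩
  let i1 : Fin N := ⟨1, by omega⟩
  let i2 : Fin N := ⟨2, by omega⟩
  have h01 : i0 ≠ i1 := by simp [i0, i1]
  have h02 : i0 ≠ i2 := by simp [i0, i2]
  have h12 : i1 ≠ i2 := by simp [i1, i2]
  let B : Set (Fin N) := {i0, i1}
  let a : Fin N → Fin N → Fin N → ℝ := fun i j k => if i = i2 ∧ j = i0 ∧ k = i1 then 1 else 0
  let c : Fin N → Fin N → Fin N → Fin N → ℝ := fun i j k m =>
    if i = i2 ∧ j = i0 ∧ k = i0 ∧ m = i1 then 1 else 0
  have hB2 : i2 ∉ B := by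
    simp only [B, Set.mem_insert_iff, Set.mem_singleton_iff, not_or]
    exact ⟨h02.symm, h12.symm⟩
  have ha : Supp3 B a := by
    intro i j k h
    by_cases h' : i = i2 ∧ j = i0 ∧ k = i1
    · obtain ⟨rfl, rfl, rfl⟩ := h'
      exact ⟨hB2, Or.inl rfl, Or.inr rfl⟩
    · exact absurd (if_neg h') h
  have hc : Supp4 B c := by
    intro i j k m h
    by_cases h' : i = i2 ∧ j = i0 ∧ k = i0 ∧ m = i1
    · obtain ⟨rfl, rfl, rfl, rfl⟩ := h'
      exact ⟨hB2, Or.inl rfl, Or.inl rfl, Or.inr rfl⟩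
    · exact absurd (if_neg h') h
  refine ⟨aff a c, ?_, i2, ⟨i0, i1, ?_⟩, ⟨i0, i0, i1, ?_⟩, ⟨i0, i0, i1, ?_⟩⟩
  · have := integrable_aff ha hc (fun _ _ _ _ => 0) (fun i j k m h => absurd rfl h)
    simpa using this
  · intro x
    rw [torsion_aff]
    simp [a, c, h01, h01.symm]
  · intro x
    rw [curvature_aff ha hc]
    simp [c, h01, h01.symm]
  · intro x
    rw [transpose_aff, curvature_aff ha.transpose hc.transpose]
    simp [c, h01, h01.symm]

end Pool.Agent.Y973.TC
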